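import Pool.Agent.X94.HyB

/-! A symmetric polynomial hypergroup with second Haar weight `15 / 8 < 2`. -/

namespace Pool.Agent.Results.MP_5c86b6_an.SymmetricExample

open Polynomial Finset

/-- There are recurrence coefficients, even with all `b n = 0`, whose polynomials have
nonnegative linearization coefficients and for which `a 0 * a 1 < 2 * (c 1 * c 2)`. -/
theorem result : ∃ (a b c : ℕ → ℝ) (P : ℕ → ℝ[X]),
    (∀ n, 0 < a n) ∧ (∀ n, b n = 0) ∧ (∀ n, 1 ≤ n → 0 < c n) ∧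
    a 0 + b 0 = 1 ∧ (∀ n, 1 ≤ n → a n + b n + c n = 1) ∧
    P 0 = 1 ∧ P 1 = C (1 / a 0) * (X - C (b 0)) ∧
    (∀ n, 1 ≤ n → X * P n = C (a n) * P (n + 1) + C (b n) * P n + C (c n) * P (n - 1)) ∧
    (∀ m n, ∃ g : ℕ → ℝ, (∀ k, 0 ≤ g k) ∧
      P m * P n = ∑ k ∈ range (m + n + 1), C (g k) * P k) ∧
    a 0 * a 1 / (c 1 * c 2) = 15 / 8 ∧ a 0 * a 1 < 2 * (c 1 * c 2) := by
  have a0 : X94.Hyp.a 0 = 1 := by rw [X94.Hyp.a, X94.Hyp.c_zero, sub_zero]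
  refine ⟨X94.Hyp.a, fun _ => 0, X94.Hyp.c, X94.Hyp.P, X94.Hyp.a_pos, fun _ => rfl,
    fun n hn => X94.Hyp.c_pos hn, ?_, fun n _ => ?_, rfl, ?_, fun n hn => ?_,
    X94.Hyp.linearization, ?_, ?_⟩
  · rw [a0, add_zero]
  · rw [X94.Hyp.a]; ring
  · rw [a0]
    show X = _
    simp
  · obtain ⟨k, rfl⟩ : ∃ k, n = k + 1 := ⟨n - 1, by omega⟩
    rw [X94.Hyp.X_mul_P, C_0, zero_mul, add_zero]
    rfl
  · rw [a0, X94.Hyp.a_one, X94.Hyp.c_one, X94.Hyp.c_two]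
    norm_num
  · rw [a0, X94.Hyp.a_one, X94.Hyp.c_one, X94.Hyp.c_two]
    norm_num

end Pool.Agent.Results.MP_5c86b6_an.SymmetricExample
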